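import Pool.Agent.Helper61.LN.Goals

/-!
# PROJECT LN (MP_c65973_gt), packet PAT: a knot is connected
-/

set_option autoImplicit false

namespace Pool.Agent.Helper98.LN.PAT

open Pool.Agent.Helper31.Sk Pool.Agent.Helper61.LN

/-- all the orientations of a diagram, with the directions of the strands at all the levels -/
def pths : Word → List Bool → List (List (List Bool))
  | [], l => [[l]]
  | (i, g) :: w, l => (passes i g l).flatMap (fun l' => (pths w l').map (l :: ·))

theorem length_pths (w : Word) : ∀ l : List Bool, (pths w l).length = orients w l := by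
  induction w with
  | nil => intro l; rfl
  | cons s w ih =>
    intro l
    obtain ⟨i, g⟩ := s
    simp only [pths, orients, List.length_flatMap, List.length_map, ih]

open Classical in
/-- the direction is reversed if `P` holds -/
noncomputable def fb (P : Prop) (x : Bool) : Bool := if P then !x else x

theorem fb_congr {P P' : Prop} (h : P ↔ P') (x : Bool) : fb P x = fb P' x := by
  rw [propext h]

theorem fb_pos {P : Prop} (h : P) (x : Bool) : fb P x = !x := by
  unfold fb
  rw [if_pos h]

theorem fb_neg {P : Prop} (h : ¬ P) (x : Bool) : fb P x = x := by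
  unfold fb
  rw [if_neg h]

/-- the directions with index in `P` are reversed -/
noncomputable def fl : (ℕ → Prop) → List Bool → List Bool
  | _, [] => []
  | P, x :: l => fb (P 0) x :: fl (fun j => P (j + 1)) l

theorem fl_congr (l : List Bool) : ∀ P P' : ℕ → Prop, (∀ j < l.length, (P j ↔ P' j)) →
    fl P l = fl P' l := by
  induction l with
  | nil => intro P P' _; rfl
  | cons x l ih =>
    intro P P' h
    have h0 := h 0 (by simp)
    have h1 := ih (fun j => P (j + 1)) (fun j => P' (j + 1)) (fun j hj => h (j + 1) (by simpa using hj))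
    simp only [fl, h1]
    rw [fb_congr h0]

theorem fl_length (l : List Bool) : ∀ P : ℕ → Prop, (fl P l).length = l.length := by
  induction l with
  | nil => intro P; rfl
  | cons x l ih => intro P; simp [fl, ih]

theorem fl_self (l : List Bool) : ∀ P : ℕ → Prop, fl P l = l → ∀ j < l.length, ¬ P j := by
  induction l with
  | nil => intro P _ j hj; simp at hj
  | cons x l ih =>
    intro P h j hj
    simp only [fl, List.cons.injEq] at h
    rcases j with _ | j
    · intro h0
      rw [fb_pos h0] at h
      cases x <;> simp at h
    · exact ih _ h.2 j (by simpa using hj)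

theorem fl_top (l : List Bool) : ∀ P : ℕ → Prop, fl P l = fl (fun _ => True) l →
    ∀ j < l.length, P j := by
  induction l with
  | nil => intro P _ j hj; simp at hj
  | cons x l ih =>
    intro P h j hj
    simp only [fl, List.cons.injEq] at h
    rcases j with _ | j
    · by_contra h0
      rw [fb_neg h0, fb_pos trivial] at h
      cases x <;> simp at h
    · exact ih (fun j => P (j + 1)) h.2 j (by simpa using hj)

theorem passes_length (i : ℕ) (g : Gen) : ∀ (l l' : List Bool), i + g.src ≤ l.length →
    l' ∈ passes i g l → l'.length = l.length - g.src + g.tgt := by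
  induction i with
  | zero =>
    intro l l' h h'
    cases g with
    | cup =>
      simp only [passes, List.mem_cons, List.not_mem_nil, or_false] at h'
      rcases h' with rfl | rfl <;> simp [Gen.src, Gen.tgt]
    | cap =>
      rcases l with _ | ⟨x, _ | ⟨y, l⟩⟩
      · simp [Gen.src] at h
      · simp [Gen.src] at h
      · simp only [passes] at h'
        split_ifs at h' with h1
        · simp at h'
        · simp only [List.mem_cons, List.not_mem_nil, or_false] at h'
          subst h'
          simp [Gen.src, Gen.tgt]
    | pos =>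
      rcases l with _ | ⟨x, _ | ⟨y, l⟩⟩
      · simp [Gen.src] at h
      · simp [Gen.src] at h
      · simp only [passes, List.mem_cons, List.not_mem_nil, or_false] at h'
        subst h'
        simp [Gen.src, Gen.tgt]
    | neg =>
      rcases l with _ | ⟨x, _ | ⟨y, l⟩⟩
      · simp [Gen.src] at h
      · simp [Gen.src] at h
      · simp only [passes, List.mem_cons, List.not_mem_nil, or_false] at h'
        subst h'
        simp [Gen.src, Gen.tgt]
  | succ i ih =>
    intro l l' h h'
    rcases l with _ | ⟨x, l⟩
    · simp at h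
    · simp only [passes, List.mem_map] at h'
      obtain ⟨l'', h2, rfl⟩ := h'
      have := ih l l'' (by simp only [List.length_cons] at h; omega) h2
      simp only [List.length_cons] at h ⊢
      omega

theorem passes_fl (i : ℕ) (g : Gen) : ∀ (l l' : List Bool) (P P' : ℕ → Prop),
    i + g.src ≤ l.length → CompatP l.length i g P P' → l' ∈ passes i g l →
    fl P' l' ∈ passes i g (fl P l) := by
  induction i with
  | zero =>
    intro l l' P P' h hc h'
    obtain ⟨-, hc2, hc3, hc4, hc5⟩ := hc
    cases g with
    | cup =>
      have h0 := hc3 rfl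
      have e : fl (fun j => P' (j + 1 + 1)) l = fl P l :=
        fl_congr _ _ _ fun j hj => (hc2 j (by simp [Gen.src]) hj).symm
      simp only [Nat.zero_add] at h0
      simp only [passes, List.mem_cons, List.not_mem_nil, or_false] at h' ⊢
      by_cases hp : P' 0
      · have hp1 := h0.1 hp
        rcases h' with rfl | rfl <;> simp [fl, fb_pos hp, fb_pos hp1, e]
      · have hp1 : ¬ P' 1 := fun hh => hp (h0.2 hh)
        rcases h' with rfl | rfl <;> simp [fl, fb_neg hp, fb_neg hp1, e]
    | cap =>
      rcases l with _ | ⟨x, _ | ⟨y, l⟩⟩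
      · simp [Gen.src] at h
      · simp [Gen.src] at h
      · have h0 := hc4 rfl
        simp only [Nat.zero_add] at h0
        simp only [passes] at h'
        split_ifs at h' with h1
        · simp at h'
        · simp only [List.mem_cons, List.not_mem_nil, or_false] at h'
          subst h'
          have e : fl (fun j => P (j + 1 + 1)) l' = fl P' l' :=
            fl_congr _ _ _ fun j hj => by
              have := hc2 (j + 2) (by simp [Gen.src]) (by simp only [List.length_cons]; omega)
              simpa [Gen.src, Gen.tgt] using this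
          by_cases hp : P 0
          · have hp1 := h0.1 hp
            simp [fl, fb_pos hp, fb_pos hp1, e, passes, h1]
          · have hp1 : ¬ P 1 := fun hh => hp (h0.2 hh)
            simp [fl, fb_neg hp, fb_neg hp1, e, passes, h1]
    | pos =>
      rcases l with _ | ⟨x, _ | ⟨y, l⟩⟩
      · simp [Gen.src] at h
      · simp [Gen.src] at h
      · have h0 := hc5 (Or.inl rfl)
        simp only [Nat.zero_add] at h0
        simp only [passes, List.mem_cons, List.not_mem_nil, or_false] at h'
        subst h'
        have e : fl (fun j => P (j + 1 + 1)) l = fl (fun j => P' (j + 1 + 1)) l :=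
          fl_congr _ _ _ fun j hj => by
            have := hc2 (j + 2) (by simp [Gen.src]) (by simp only [List.length_cons]; omega)
            simpa [Gen.src, Gen.tgt] using this
        simp only [fl, passes, e, List.mem_cons, List.not_mem_nil, or_false, List.cons.injEq, and_true]
        exact ⟨fb_congr h0.2.symm _, fb_congr h0.1.symm _⟩
    | neg =>
      rcases l with _ | ⟨x, _ | ⟨y, l⟩⟩
      · simp [Gen.src] at h
      · simp [Gen.src] at h
      · have h0 := hc5 (Or.inr rfl)
        simp only [Nat.zero_add] at h0
        simp only [passes, List.mem_cons, List.not_mem_nil, or_false] at h'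
        subst h'
        have e : fl (fun j => P (j + 1 + 1)) l = fl (fun j => P' (j + 1 + 1)) l :=
          fl_congr _ _ _ fun j hj => by
            have := hc2 (j + 2) (by simp [Gen.src]) (by simp only [List.length_cons]; omega)
            simpa [Gen.src, Gen.tgt] using this
        simp only [fl, passes, e, List.mem_cons, List.not_mem_nil, or_false, List.cons.injEq, and_true]
        exact ⟨fb_congr h0.2.symm _, fb_congr h0.1.symm _⟩
  | succ i ih =>
    intro l l' P P' h hc h'
    rcases l with _ | ⟨x, l⟩
    · simp at h
    · simp only [passes, List.mem_map] at h'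
      obtain ⟨l'', h2, rfl⟩ := h'
      obtain ⟨hc1, hc2, hc3, hc4, hc5⟩ := hc
      have h3 := ih l l'' (fun j => P (j + 1)) (fun j => P' (j + 1))
        (by simp only [List.length_cons] at h; omega)
        ⟨fun j hj => hc1 (j + 1) (by omega),
          fun j hj hj' => by
            have h4 := hc2 (j + 1) (by omega) (by simp only [List.length_cons]; omega)
            have e : j + 1 - g.src + g.tgt = j - g.src + g.tgt + 1 := by omega
            rwa [e] at h4,
          fun e => by
            have := hc3 e
            have e1 : i + 1 + 1 = (i + 1) + 1 := rfl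
            exact this,
          fun e => hc4 e, fun e => hc5 e⟩ h2
      have h0 := hc1 0 (by omega)
      simp only [fl, passes, List.mem_map]
      exact ⟨_, h3, by rw [fb_congr h0]⟩

/-- the directions with index in `Q` are reversed, at all the levels -/
noncomputable def flS : (ℕ → ℕ → Prop) → List (List Bool) → List (List Bool)
  | _, [] => []
  | Q, l :: σ => fl (Q 0) l :: flS (fun k => Q (k + 1)) σ

/-- `Q` is compatible with all the pieces of `w` -/
def Cm (n₀ : ℕ) (w : Word) (Q : ℕ → ℕ → Prop) : Prop :=
  ∀ (u v : Word) (i n : ℕ) (g : Gen), w = u ++ (i, g) :: v → Legal n₀ u n →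
    CompatP n i g (Q u.length) (Q (u.length + 1))

theorem cm_head {n₀ i : ℕ} {g : Gen} {w : Word} {Q : ℕ → ℕ → Prop} (h : Cm n₀ ((i, g) :: w) Q) :
    CompatP n₀ i g (Q 0) (Q 1) := h [] w i n₀ g rfl rfl

theorem cm_tail {n₀ i : ℕ} {g : Gen} {w : Word} {Q : ℕ → ℕ → Prop} (hi : i + g.src ≤ n₀)
    (h : Cm n₀ ((i, g) :: w) Q) : Cm (n₀ - g.src + g.tgt) w (fun k => Q (k + 1)) := by
  intro u v i' n g' e hl
  exact h ((i, g) :: u) v i' n g' (by rw [e]; rfl) ⟨hi, hl⟩

theorem pths_fl (w : Word) : ∀ (m : ℕ) (l : List Bool) (Q : ℕ → ℕ → Prop) (σ : List (List Bool)),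
    Legal l.length w m → Cm l.length w Q → σ ∈ pths w l → flS Q σ ∈ pths w (fl (Q 0) l) := by
  induction w with
  | nil =>
    intro m l Q σ _ _ h
    simp only [pths, List.mem_cons, List.not_mem_nil, or_false] at h ⊢
    subst h
    rfl
  | cons s w ih =>
    intro m l Q σ hL hC h
    obtain ⟨i, g⟩ := s
    obtain ⟨h1, h2⟩ := hL
    simp only [pths, List.mem_flatMap, List.mem_map] at h ⊢
    obtain ⟨l', hl', σ', hσ', rfl⟩ := h
    have hlen := passes_length i g l l' h1 hl'
    refine ⟨fl (Q 1) l', passes_fl i g l l' _ _ h1 (cm_head hC) hl', _,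
      ih m l' (fun k => Q (k + 1)) σ' (by rw [hlen]; exact h2)
        (by rw [hlen]; exact cm_tail h1 hC) hσ', rfl⟩

theorem flS_get (σ : List (List Bool)) : ∀ (Q : ℕ → ℕ → Prop) (k : ℕ),
    (flS Q σ)[k]? = (σ[k]?).map (fl (Q k)) := by
  induction σ with
  | nil => intro Q k; simp [flS]
  | cons l σ ih =>
    intro Q k
    rcases k with _ | k
    · simp [flS]
    · simp [flS, ih]

theorem pths_get (u : Word) : ∀ (v : Word) (l : List Bool) (n : ℕ) (σ : List (List Bool)),
    Legal l.length u n → σ ∈ pths (u ++ v) l → ∃ l', σ[u.length]? = some l' ∧ l'.length = n := by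
  induction u with
  | nil =>
    intro v l n σ h1 h2
    refine ⟨l, ?_, h1⟩
    rcases v with _ | ⟨⟨i, g⟩, v⟩
    · simp only [List.append_nil, pths, List.mem_cons, List.not_mem_nil, or_false] at h2
      subst h2
      rfl
    · simp only [List.nil_append, pths, List.mem_flatMap, List.mem_map] at h2
      obtain ⟨l', hl', σ', hσ', rfl⟩ := h2
      rfl
  | cons s u ih =>
    intro v l n σ h1 h2
    obtain ⟨i, g⟩ := s
    obtain ⟨h1, h3⟩ := h1
    simp only [List.cons_append, pths, List.mem_flatMap, List.mem_map] at h2
    obtain ⟨l', hl', σ', hσ', rfl⟩ := h2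
    have hlen := passes_length i g l l' h1 hl'
    obtain ⟨l₂, h4, h5⟩ := ih v l' n σ' (by rw [hlen]; exact h3) hσ'
    exact ⟨l₂, by simpa using h4, h5⟩

theorem t : S_PAT := by
  intro w Q hw hQ u v u' v' n n' i i' e e' hl hl' hi hi'
  have h2 : (pths w []).length = 2 := by rw [length_pths]; exact hw.2
  obtain ⟨σ₁, σ₂, hσ⟩ := List.length_eq_two.1 h2
  have m1 : σ₁ ∈ pths w [] := by rw [hσ]; simp
  have hQ' : Cm ([] : List Bool).length w Q := hQ
  have hT : Cm ([] : List Bool).length w (fun _ _ => True) := by
    intro u v i n g _ _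
    exact ⟨fun _ _ => Iff.rfl, fun _ _ _ => Iff.rfl, fun _ => Iff.rfl, fun _ => Iff.rfl,
      fun _ => ⟨Iff.rfl, Iff.rfl⟩⟩
  have mQ : flS Q σ₁ ∈ pths w [] := pths_fl w 0 [] Q σ₁ hw.1 hQ' m1
  have mT : flS (fun _ _ => True) σ₁ ∈ pths w [] := pths_fl w 0 [] _ σ₁ hw.1 hT m1
  obtain ⟨l, g1, g2⟩ := pths_get u v [] n σ₁ hl (by rw [← e]; exact m1)
  obtain ⟨l', g1', g2'⟩ := pths_get u' v' [] n' σ₁ hl' (by rw [← e']; exact m1)
  have a1 : (flS Q σ₁)[u.length]? = some (fl (Q u.length) l) := by rw [flS_get, g1]; rfl
  have a1' : (flS Q σ₁)[u'.length]? = some (fl (Q u'.length) l') := by rw [flS_get, g1']; rfl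
  have a2 : (flS (fun _ _ => True) σ₁)[u.length]? = some (fl (fun _ => True) l) := by
    rw [flS_get, g1]; rfl
  have a2' : (flS (fun _ _ => True) σ₁)[u'.length]? = some (fl (fun _ => True) l') := by
    rw [flS_get, g1']; rfl
  rw [hσ] at mQ mT
  simp only [List.mem_cons, List.not_mem_nil, or_false] at mQ mT
  have hT2 : flS (fun _ _ => True) σ₁ = σ₂ := by
    rcases mT with h | h
    · exfalso
      rw [h, g1] at a2
      exact fl_self l _ (Option.some.inj a2).symm i (by omega) trivial
    · exact h
  rcases mQ with h | h
  · rw [h, g1] at a1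
    rw [h, g1'] at a1'
    have b1 := fl_self l _ (Option.some.inj a1).symm i (by omega)
    have b2 := fl_self l' _ (Option.some.inj a1').symm i' (by omega)
    exact ⟨fun hh => absurd hh b1, fun hh => absurd hh b2⟩
  · rw [h, ← hT2, a2] at a1
    rw [h, ← hT2, a2'] at a1'
    have b1 := fl_top l _ (Option.some.inj a1).symm i (by omega)
    have b2 := fl_top l' _ (Option.some.inj a1').symm i' (by omega)
    exact ⟨fun _ => b2, fun _ => b1⟩

end Pool.Agent.Helper98.LN.PAT
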